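import Pool.Agent.Helper48.OD.St

set_option autoImplicit false

namespace Pool.Agent.Helper76.OD

open Pool.Agent.Helper43.GD Pool.Agent.Helper48.OD

private lemma core (hG : StK2G) (hT : StK2T) {L A : Type} [CommRing L] [Group A] (Q : Fr L A)
    (v a c s : Lˣ) (hD : D2 L A Q v) (ha : K2 Q a) (hao : Od a) (hc : (c : L) = 1 + (a : L))
    (hco : Od (-c)) (hs : K2 Q s) (hso : Od s) (h1 : Q.In (1 + (c : L) * (s : L)))
    (h2 : Q.In (1 + (c : L) * ((s⁻¹ : Lˣ) : L)))
    (h3 : ∀ R : Subring L, (s : L) ∈ R → (v : L) ∈ R) : K2 Q c := by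
  obtain ⟨-, gneg, gmul, ginv, gI, -⟩ := hG L A Q v hD
  have hcU : c ∈ Q.U := by
    rw [← in_iff Q, hc]
    exact gI a ha hao
  have hT1 : Gd Q (-(c * s)) := by
    refine ⟨neg_mem Q (Q.U.mul_mem hcU hs.1), ?_⟩
    rw [Units.val_neg, Units.val_mul, sub_neg_eq_add]
    exact h1
  have hT2 : Gd Q (-(c * s) * (s ^ 2)⁻¹) := by
    have e : -(c * s) * (s ^ 2)⁻¹ = -(c * s⁻¹) := by
      rw [pow_two, mul_inv, neg_mul]
      congr 1
      rw [mul_assoc, ← mul_assoc s, mul_inv_cancel, one_mul]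
    rw [e]
    refine ⟨neg_mem Q (Q.U.mul_mem hcU (Q.U.inv_mem hs.1)), ?_⟩
    rw [Units.val_neg, Units.val_mul, sub_neg_eq_add]
    exact h2
  have hTo : Od (-(c * s)) := by
    rw [← neg_mul]
    exact hco.mul hso
  have ht : K2 Q (s ^ 2) := by
    rw [pow_two]
    exact gmul s s hs hs
  have hgn : Gn ((s ^ 2 : Lˣ) : L) := by
    rw [gn_iff]
    intro R hR
    obtain ⟨n, hn⟩ := hso.eq_pow 1
    have hsR : (s : L) ∈ R := by
      rw [← hn, pow_one, Units.val_pow_eq_pow_val]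
      exact R.pow_mem hR _
    exact (gn_iff (v : L)).mp hD.fo.gn R (h3 R hsR)
  have hK := hT.2 L A Q v hD (-(c * s)) (s ^ 2) hT1 hTo ht (hso.pow 2) hgn hT2
  have hfin := gmul _ _ (gmul _ _ gneg hK) (ginv s hs)
  have e : -1 * -(c * s) * s⁻¹ = c := by
    rw [neg_mul_neg, one_mul, mul_assoc, mul_inv_cancel, mul_one]
  rwa [e] at hfin

theorem hXM (hG : StK2G) (hT : StK2T) (hV : StK2V) (hO : StDOD) : StXM := by
  intro L A _ _ Q v a c hD ha hao hc hco
  obtain ⟨-, gneg, gmul, ginv, gI, -⟩ := hG L A Q v hD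
  have hfin : Finite L := hD.fo.fin
  obtain ⟨v', hv'U, hv'⟩ := hD.fo.gd.2
  have hvU : v ∈ Q.U := hD.fo.gd.1
  have hvo : Od v := hD.fo.od
  obtain ⟨kv, kv'⟩ := hV L A Q v v' hD hv'
  have i1 : (v : L) * ((v⁻¹ : Lˣ) : L) = 1 := v.mul_inv
  have i2 : (v' : L) * ((v'⁻¹ : Lˣ) : L) = 1 := v'.mul_inv
  rcases (hO L A Q v hD).1 v' hv'U with ho | ho
  · -- `v'` odd
    refine core hG hT Q v a c (v * v'⁻¹) hD ha hao hc hco (gmul _ _ kv (ginv _ kv'))
      (hvo.mul ho.inv) ?_ ?_ ?_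
    · have hI := gI (a * v) (gmul _ _ ha kv) (hao.mul hvo)
      have e : 1 + (c : L) * ((v * v'⁻¹ : Lˣ) : L) =
          ((v'⁻¹ : Lˣ) : L) * (1 + ((a * v : Lˣ) : L)) := by
        rw [Units.val_mul, Units.val_mul, hc]
        have e1 : (v : L) = 1 - (v' : L) := by rw [hv']; ring
        have e2 : 1 + (v : L) * ((v'⁻¹ : Lˣ) : L) = ((v'⁻¹ : Lˣ) : L) := by
          rw [e1]
          linear_combination -i2
        linear_combination e2
      rw [e]
      exact in_mul Q (in_val Q (Q.U.inv_mem hv'U)) hI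
    · have hI := gI (a * v') (gmul _ _ ha kv') (hao.mul ho)
      have e : 1 + (c : L) * (((v * v'⁻¹)⁻¹ : Lˣ) : L) =
          ((v⁻¹ : Lˣ) : L) * (1 + ((a * v' : Lˣ) : L)) := by
        rw [mul_inv, inv_inv, Units.val_mul, Units.val_mul, hc]
        have e2 : 1 + (v' : L) * ((v⁻¹ : Lˣ) : L) = ((v⁻¹ : Lˣ) : L) := by
          rw [hv']
          linear_combination -i1
        linear_combination e2
      rw [e]
      exact in_mul Q (in_val Q (Q.U.inv_mem hvU)) hI
    · intro R hR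
      have e2 : 1 + ((v * v'⁻¹ : Lˣ) : L) = ((v'⁻¹ : Lˣ) : L) := by
        have e1 : (v : L) = 1 - (v' : L) := by rw [hv']; ring
        rw [Units.val_mul, e1]
        linear_combination -i2
      have m1 : ((v'⁻¹ : Lˣ) : L) ∈ R := by
        rw [← e2]
        exact R.add_mem R.one_mem hR
      have m2 : (v' : L) ∈ R := by
        have := inv_mem R v'⁻¹ m1
        rwa [inv_inv] at this
      have e3 : (v : L) = 1 - (v' : L) := by rw [hv']; ring
      rw [e3]
      exact R.sub_mem R.one_mem m2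
  · -- `-v'` odd
    have kn : K2 Q (-v') := by
      have := gmul _ _ gneg kv'
      rwa [neg_one_mul] at this
    refine core hG hT Q v a c (-v') hD ha hao hc hco kn ho ?_ ?_ ?_
    · have hI := gI (a * (-v' * v⁻¹)) (gmul _ _ ha (gmul _ _ kn (ginv _ kv)))
        (hao.mul (ho.mul hvo.inv))
      have e : 1 + (c : L) * ((-v' : Lˣ) : L) =
          (v : L) * (1 + ((a * (-v' * v⁻¹) : Lˣ) : L)) := by
        rw [Units.val_mul, Units.val_mul, Units.val_neg, hc]
        linear_combination -hv' + (a : L) * (v' : L) * i1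
      rw [e]
      exact in_mul Q (in_val Q hvU) hI
    · have hI := gI (a * v⁻¹) (gmul _ _ ha (ginv _ kv)) (hao.mul hvo.inv)
      have e : 1 + (c : L) * (((-v')⁻¹ : Lˣ) : L) =
          ((-(v * v'⁻¹) : Lˣ) : L) * (1 + ((a * v⁻¹ : Lˣ) : L)) := by
        rw [inv_neg, Units.val_neg, Units.val_neg, Units.val_mul, Units.val_mul, hc]
        have e2 : 1 - ((v'⁻¹ : Lˣ) : L) = -((v : L) * ((v'⁻¹ : Lˣ) : L)) := by
          have e1 : (v : L) = 1 - (v' : L) := by rw [hv']; ring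
          rw [e1]
          linear_combination -i2
        linear_combination e2 + (a : L) * ((v'⁻¹ : Lˣ) : L) * i1
      rw [e]
      exact in_mul Q (in_val Q (neg_mem Q (Q.U.mul_mem hvU (Q.U.inv_mem hv'U)))) hI
    · intro R hR
      have e3 : (v : L) = 1 + ((-v' : Lˣ) : L) := by rw [Units.val_neg, hv']; ring
      rw [e3]
      exact R.add_mem R.one_mem hR

end Pool.Agent.Helper76.OD
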